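import Pool.Agent.Helper191_PAC.Chain

set_option autoImplicit false

open MvPolynomial TensorProduct

namespace Pool.Agent.Helper191_PAC

lemma exists_algHom (K : Subfield ℂ) (hs : Solves K K) (R : Type) [CommRing R] [Algebra K R]
    [Algebra.FiniteType K R] (hdom : IsDomain (ℂ ⊗[K] R)) : Nonempty (R →ₐ[K] K) := by
  classical
  obtain ⟨m, g, hg⟩ := Algebra.FiniteType.iff_quotient_mvPolynomial''.1 ‹Algebra.FiniteType K R›
  obtain ⟨T, hT⟩ : (RingHom.ker g.toRingHom).FG := IsNoetherian.noetherian _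
  -- the kernel over `ℂ`
  let e := MvPolynomial.algebraTensorAlgEquiv (σ := Fin m) K ℂ
  let Φ : MvPolynomial (Fin m) ℂ →+* ℂ ⊗[K] R :=
    (Algebra.TensorProduct.map (AlgHom.id K ℂ) g : _ →+* _).comp
      (e.symm : MvPolynomial (Fin m) ℂ →+* ℂ ⊗[K] MvPolynomial (Fin m) K)
  have hΦ : ∀ x, Φ x = Algebra.TensorProduct.map (AlgHom.id K ℂ) g (e.symm x) := fun x => rfl
  have hsymm : ∀ q : MvPolynomial (Fin m) K, e.symm (map K.subtype q) = 1 ⊗ₜ q := fun q =>
    MvPolynomial.algebraTensorAlgEquiv_symm_map (R := K) (A := ℂ) q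
  have hsymm' : ∀ q : MvPolynomial (Fin m) K, e (1 ⊗ₜ q) = map K.subtype q := by
    intro q
    rw [← hsymm q, AlgEquiv.apply_symm_apply]
  have hker : RingHom.ker Φ = Ideal.span
      ((T.image (map K.subtype) : Finset (MvPolynomial (Fin m) ℂ)) :
        Set (MvPolynomial (Fin m) ℂ)) := by
    apply le_antisymm
    · intro x hx
      rw [RingHom.mem_ker, hΦ] at hx
      have H := Algebra.TensorProduct.lTensor_ker (A := ℂ) g hg
      have h2 : e.symm x ∈ RingHom.ker (Algebra.TensorProduct.map (AlgHom.id K ℂ) g) := hx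
      rw [H] at h2
      have h3 : RingHom.ker g = Ideal.span (T : Set (MvPolynomial (Fin m) K)) := hT.symm
      rw [h3, Ideal.map_span] at h2
      have h4 : e (e.symm x) ∈ Ideal.map (e : ℂ ⊗[K] MvPolynomial (Fin m) K →+*
          MvPolynomial (Fin m) ℂ) (Ideal.span (⇑(Algebra.TensorProduct.includeRight :
            MvPolynomial (Fin m) K →ₐ[K] ℂ ⊗[K] MvPolynomial (Fin m) K) '' (T : Set _))) :=
        Ideal.mem_map_of_mem _ h2
      rw [AlgEquiv.apply_symm_apply, Ideal.map_span] at h4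
      refine Ideal.span_mono ?_ h4
      rintro _ ⟨_, ⟨q, hq, rfl⟩, rfl⟩
      rw [Finset.coe_image]
      exact ⟨q, hq, (hsymm' q).symm⟩
    · rw [Ideal.span_le]
      intro x hx
      rw [Finset.coe_image] at hx
      obtain ⟨q, hq, rfl⟩ := hx
      have h3 : q ∈ RingHom.ker g.toRingHom := hT ▸ Ideal.subset_span hq
      have h4 : g q = 0 := h3
      change Φ _ = 0
      rw [hΦ, hsymm, Algebra.TensorProduct.map_tmul, h4, TensorProduct.tmul_zero]
  have hprime : (Ideal.span ((T.image (map K.subtype) : Finset (MvPolynomial (Fin m) ℂ)) :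
      Set (MvPolynomial (Fin m) ℂ))).IsPrime := by
    rw [← hker]
    exact RingHom.ker_isPrime Φ
  obtain ⟨x, hx, hx'⟩ := hs m _ (by
    intro s hs
    rw [Finset.mem_image] at hs
    obtain ⟨f, _, rfl⟩ := hs
    exact coeffIn_map f) hprime
  let y : Fin m → K := fun i => ⟨x i, hx i⟩
  have h1 : ∀ p ∈ RingHom.ker g.toRingHom, aeval y p = 0 := by
    intro p hp
    rw [← hT] at hp
    refine Submodule.span_induction (p := fun q _ => aeval y q = 0) ?_ ?_ ?_ ?_ hp
    · intro q hq
      have h2 := hx' (map K.subtype q) (Finset.mem_image_of_mem _ hq)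
      rw [MvPolynomial.eval_map] at h2
      apply Subtype.ext
      have h3 : ((aeval y q : K) : ℂ) = K.subtype (eval₂ (algebraMap K K) y q) := rfl
      rw [h3, MvPolynomial.eval₂_comp_left]
      exact h2
    · exact map_zero _
    · intro a b _ _ ha hb
      rw [map_add, ha, hb, add_zero]
    · intro a b _ hb
      rw [smul_eq_mul, map_mul, hb, mul_zero]
  exact ⟨AlgHom.liftOfSurjective g hg (aeval y) h1⟩

end Pool.Agent.Helper191_PAC
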