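import Pool.Agent.Helper191_PAC.Generic

set_option autoImplicit false

open Cardinal MvPolynomial

namespace Pool.Agent.Helper191_PAC

lemma mem_iSup {u : ℕ → Subfield ℂ} (hu : Monotone u) (z : ℂ) :
    z ∈ (⨆ n, u n) ↔ ∃ n, z ∈ u n :=
  Subfield.mem_iSup_of_directed hu.directed_le

lemma union_good {u : ℕ → Subfield ℂ} (hu : Monotone u) (hc : ∀ n, Countable (u n))
    (hr : ∀ n, Reg (u n)) : Countable ↥(⨆ n, u n) ∧ Reg (⨆ n, u n) := by
  refine ⟨?_, ?_⟩
  · have h1 : ((⨆ n, u n : Subfield ℂ) : Set ℂ) ⊆ ⋃ n, (u n : Set ℂ) := by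
      intro z hz
      obtain ⟨n, hn⟩ := (mem_iSup hu z).1 hz
      exact Set.mem_iUnion.2 ⟨n, hn⟩
    exact (Set.countable_iUnion fun n => (hc n : (u n : Set ℂ).Countable)).mono h1
  · intro z hz hza
    obtain ⟨n, hn⟩ := (mem_iSup hu z).1 hz
    exact hr n z hn hza

lemma exists_seq {α : Type} (R : ℕ → α → α → Prop) (h : ∀ n a, ∃ b, R n a b) (a : α) :
    ∃ u : ℕ → α, u 0 = a ∧ ∀ n, R n (u n) (u (n + 1)) := by
  choose f hf using h
  refine ⟨fun n => Nat.rec a (fun j b => f j b) n, rfl, fun n => hf n _⟩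

/-- the finite systems over `K` with a prime ideal over `ℂ` have zeros in `K'` -/
def Solves (K K' : Subfield ℂ) : Prop :=
  ∀ (m : ℕ) (S : Finset (MvPolynomial (Fin m) ℂ)), (∀ s ∈ S, CoeffIn K s) →
    (Ideal.span (S : Set (MvPolynomial (Fin m) ℂ))).IsPrime →
    ∃ x : Fin m → ℂ, (∀ i, x i ∈ K') ∧ ∀ s ∈ S, eval x s = 0

lemma CoeffIn.mono {m : ℕ} {K K' : Subfield ℂ} (h : K ≤ K') {p : MvPolynomial (Fin m) ℂ}
    (hp : CoeffIn K p) : CoeffIn K' p := fun d => h (hp d)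

lemma coeffIn_map {m : ℕ} {K : Subfield ℂ} (f : MvPolynomial (Fin m) K) :
    CoeffIn K (map K.subtype f) := by
  intro d
  rw [coeff_map]
  exact (f.coeff d).2

lemma exists_solves (K : Subfield ℂ) (hK : Countable K) (hr : Reg K) :
    ∃ K' : Subfield ℂ, K ≤ K' ∧ Countable K' ∧ Reg K' ∧ Solves K K' := by
  classical
  have hc : ∀ m, Countable (MvPolynomial (Fin m) K) := fun m => countable_mvPolynomial m K hK
  have hne : Nonempty (Σ m : ℕ, Finset (MvPolynomial (Fin m) K)) := ⟨⟨0, ∅⟩⟩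
  obtain ⟨t, ht⟩ := exists_surjective_nat (Σ m : ℕ, Finset (MvPolynomial (Fin m) K))
  let A := {L : Subfield ℂ // K ≤ L ∧ Countable L ∧ Reg L}
  let R : ℕ → A → A → Prop := fun n L L' => L.1 ≤ L'.1 ∧
    ((Ideal.span ((map K.subtype) '' ((t n).2 : Set (MvPolynomial (Fin (t n).1) K)))).IsPrime →
      ∃ x : Fin (t n).1 → ℂ, (∀ i, x i ∈ L'.1) ∧ ∀ s ∈ (t n).2, eval x (map K.subtype s) = 0)
  obtain ⟨u, hu0, hu⟩ := exists_seq R (by
    intro n L
    by_cases hp : (Ideal.span ((map K.subtype) ''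
        ((t n).2 : Set (MvPolynomial (Fin (t n).1) K)))).IsPrime
    · obtain ⟨L', h1, h2, h3, x, h4, h5⟩ := exists_zero L.1 L.2.2.1 L.2.2.2 _ (by
        rintro s ⟨f, _, rfl⟩
        exact (coeffIn_map f).mono L.2.1) hp
      exact ⟨⟨L', L.2.1.trans h1, h2, h3⟩, h1, fun _ => ⟨x, h4, fun s hs => h5 _ ⟨s, hs, rfl⟩⟩⟩
    · exact ⟨L, le_rfl, fun h => absurd h hp⟩) ⟨K, le_rfl, hK, hr⟩
  have hmono : Monotone (fun n => (u n).1) := monotone_nat_of_le_succ fun n => (hu n).1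
  obtain ⟨g1, g2⟩ := union_good hmono (fun n => (u n).2.2.1) (fun n => (u n).2.2.2)
  refine ⟨⨆ n, (u n).1, ?_, g1, g2, ?_⟩
  · intro z hz
    exact (mem_iSup hmono z).2 ⟨0, (u 0).2.1 hz⟩
  · intro m S hS hp
    obtain ⟨T, hT⟩ : ∃ T : Finset (MvPolynomial (Fin m) K), T.image (map K.subtype) = S := by
      have h1 : ∀ s ∈ S, ∃ f : MvPolynomial (Fin m) K, map K.subtype f = s := by
        intro s hs
        refine MvPolynomial.mem_range_map_iff_coeffs_subset.2 ?_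
        intro c hc
        simp only [Subfield.coe_subtype, Subtype.range_coe_subtype]
        obtain ⟨d, _, rfl⟩ := MvPolynomial.mem_coeffs_iff.1 hc
        exact hS s hs d
      choose! f hf using h1
      refine ⟨S.image f, ?_⟩
      rw [Finset.image_image]
      ext s
      rw [Finset.mem_image]
      constructor
      · rintro ⟨r, hr, rfl⟩
        rw [Function.comp_apply, hf r hr]; exact hr
      · intro hs
        exact ⟨s, hs, hf s hs⟩
    obtain ⟨n, hn⟩ := ht ⟨m, T⟩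
    have h2 := (hu n).2
    rw [hn] at h2
    have h3 : (map K.subtype) '' (T : Set (MvPolynomial (Fin m) K)) = (S : Set _) := by
      rw [← hT, Finset.coe_image]
    simp only at h2
    rw [h3] at h2
    obtain ⟨x, hx, hx'⟩ := h2 hp
    refine ⟨x, fun i => (mem_iSup hmono _).2 ⟨n + 1, hx i⟩, ?_⟩
    intro s hs
    rw [← hT, Finset.mem_image] at hs
    obtain ⟨f, hf, rfl⟩ := hs
    exact hx' f hf

theorem exists_pac : ∃ K : Subfield ℂ, Reg K ∧ Solves K K := by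
  classical
  let A := {L : Subfield ℂ // Countable L ∧ Reg L}
  let R : ℕ → A → A → Prop := fun _ L L' => L.1 ≤ L'.1 ∧ Solves L.1 L'.1
  have h0 : Countable (⊥ : Subfield ℂ) ∧ Reg (⊥ : Subfield ℂ) := by
    have h1 : ∀ z ∈ (⊥ : Subfield ℂ), ∃ q : ℚ, (q : ℂ) = z := by
      intro z hz
      have h2 : (⊥ : Subfield ℂ) ≤ (algebraMap ℚ ℂ).fieldRange := bot_le
      obtain ⟨q, hq⟩ := h2 hz
      exact ⟨q, hq⟩
    refine ⟨?_, fun z hz _ => h1 z hz⟩
    have h3 : ((⊥ : Subfield ℂ) : Set ℂ) ⊆ Set.range (fun q : ℚ => (q : ℂ)) :=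
      fun z hz => h1 z hz
    exact (Set.countable_range _).mono h3
  obtain ⟨u, _, hu⟩ := exists_seq R (by
    intro n L
    obtain ⟨L', h1, h2, h3, h4⟩ := exists_solves L.1 L.2.1 L.2.2
    exact ⟨⟨L', h2, h3⟩, h1, h4⟩) ⟨⊥, h0⟩
  have hmono : Monotone (fun n => (u n).1) := monotone_nat_of_le_succ fun n => (hu n).1
  obtain ⟨_, g2⟩ := union_good hmono (fun n => (u n).2.1) (fun n => (u n).2.2)
  refine ⟨⨆ n, (u n).1, g2, ?_⟩
  intro m S hS hp
  -- all coefficients lie in one step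
  obtain ⟨N, hN⟩ : ∃ N, ∀ s ∈ S, CoeffIn (u N).1 s := by
    have h1 : ∀ s ∈ S, ∃ N, CoeffIn (u N).1 s := by
      intro s hs
      have h2 : ∀ d, ∃ n, s.coeff d ∈ (u n).1 := fun d => (mem_iSup hmono _).1 (hS s hs d)
      choose f hf using h2
      refine ⟨s.support.sup f, fun d => ?_⟩
      by_cases hd : d ∈ s.support
      · exact hmono (Finset.le_sup hd) (hf d)
      · rw [notMem_support_iff.1 hd]; exact Subfield.zero_mem _
    choose! f hf using h1
    exact ⟨S.sup f, fun s hs => (hf s hs).mono (hmono (Finset.le_sup hs))⟩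
  obtain ⟨x, hx, hx'⟩ := (hu N).2 m S hN hp
  exact ⟨x, fun i => (mem_iSup hmono _).2 ⟨N + 1, hx i⟩, hx'⟩

end Pool.Agent.Helper191_PAC
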