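import Mathlib

set_option autoImplicit false

open Cardinal

namespace Pool.Agent.Helper191_PAC

/-- two algebraically closed fields of the cardinality of the continuum which are algebras over the
same countable field are isomorphic over that field -/
theorem exists_algEquiv {R A B : Type} [Field R] [Countable R] [Field A] [Field B] [Algebra R A]
    [Algebra R B] [IsAlgClosed A] [IsAlgClosed B] (hA : ℵ₀ < #A) (hAB : #A = #B) :
    Nonempty (A ≃ₐ[R] B) := by
  obtain ⟨s, hs⟩ := exists_isTranscendenceBasis R A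
  obtain ⟨t, ht⟩ := exists_isTranscendenceBasis R B
  have hB : ℵ₀ < #B := hAB ▸ hA
  have hR : #R ≤ ℵ₀ := Cardinal.mk_le_aleph0
  have h1 := IsAlgClosed.cardinal_eq_cardinal_transcendence_basis_of_aleph0_lt' _ hs hR hA
  have h2 := IsAlgClosed.cardinal_eq_cardinal_transcendence_basis_of_aleph0_lt' _ ht hR hB
  have h3 : #s = #t := by rw [← h1, ← h2, hAB]
  obtain ⟨e⟩ := Cardinal.eq.1 h3
  let _ := IsAlgClosed.isAlgClosure_of_transcendence_basis _ hs
  let _ := IsAlgClosed.isAlgClosure_of_transcendence_basis _ ht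
  let r : MvPolynomial s R ≃ₐ[R] MvPolynomial t R := MvPolynomial.renameEquiv R e
  let f : Algebra.adjoin R (Set.range (Subtype.val : s → A)) ≃ₐ[R]
      Algebra.adjoin R (Set.range (Subtype.val : t → B)) :=
    (hs.1.aevalEquiv.symm.trans r).trans ht.1.aevalEquiv
  let g := IsAlgClosure.equivOfEquiv A B f.toRingEquiv
  refine ⟨AlgEquiv.ofRingEquiv (f := g) ?_⟩
  intro x
  have h4 := IsAlgClosure.equivOfEquiv_algebraMap A B f.toRingEquiv (algebraMap R _ x)
  rw [← IsScalarTower.algebraMap_apply] at h4
  rw [h4]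
  have h5 : f.toRingEquiv (algebraMap R _ x) = algebraMap R _ x := f.commutes x
  rw [h5, ← IsScalarTower.algebraMap_apply]

end Pool.Agent.Helper191_PAC
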