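import Pool.Agent.Helper191_PAC.Scheme

set_option autoImplicit false

open IntermediateField

namespace Pool.Agent.Helper191_PAC

lemma fixed_of_dense (K : Type) [Field K]
    (S : Set (SeparableClosure K ≃ₐ[K] SeparableClosure K))
    (hS : (Subgroup.closure S).topologicalClosure = ⊤) (z : SeparableClosure K)
    (hz : ∀ σ ∈ S, σ z = z) : ∃ a : K, algebraMap K (SeparableClosure K) a = z := by
  have hfd : FiniteDimensional K K⟮z⟯ :=
    IntermediateField.adjoin.finiteDimensional (Algebra.IsIntegral.isIntegral z)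
  have h1 : (Subgroup.closure S).topologicalClosure ≤ K⟮z⟯.fixingSubgroup := by
    refine Subgroup.topologicalClosure_minimal _ ?_ (IntermediateField.fixingSubgroup_isClosed _)
    rw [Subgroup.closure_le]
    intro σ hσ
    have h2 : K⟮z⟯ ≤ IntermediateField.fixedField (Subgroup.zpowers σ) := by
      rw [adjoin_simple_le_iff]
      rintro ⟨τ, hτ⟩
      have h3 : Subgroup.zpowers σ ≤ MulAction.stabilizer _ z := by
        rw [Subgroup.zpowers_le]
        exact hz σ hσ
      exact h3 hτ
    exact (IntermediateField.le_iff_le _ _).1 h2 (Subgroup.mem_zpowers σ)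
  rw [hS] at h1
  have h4 : z ∈ (⊥ : IntermediateField K (SeparableClosure K)) := by
    rw [InfiniteGalois.mem_bot_iff_fixed]
    intro σ
    have h5 : σ ∈ K⟮z⟯.fixingSubgroup := h1 (Subgroup.mem_top σ)
    exact (IntermediateField.mem_fixingSubgroup_iff _ _).1 h5 z (mem_adjoin_simple_self K z)
  exact IntermediateField.mem_bot.1 h4

lemma not_square {p q : ℕ} (hp : p.Prime) (hq : q.Prime) (hpq : p ≠ q) (r : ℚ) :
    r ^ 2 ≠ (p : ℚ) * q := by
  intro h
  have h1 : IsSquare ((p * q : ℕ) : ℚ) := ⟨r, by push_cast; rw [← h, sq]⟩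
  rw [Rat.isSquare_natCast_iff] at h1
  obtain ⟨k, hk⟩ := h1
  have h2 : p ∣ k := by
    have : p ∣ k * k := hk ▸ dvd_mul_right p q
    rcases hp.dvd_mul.1 this with h | h <;> exact h
  obtain ⟨l, rfl⟩ := h2
  have h3 : q = p * (l * l) := by
    apply Nat.eq_of_mul_eq_mul_left hp.pos
    rw [hk]; ring
  have h4 : p ∣ q := ⟨l * l, h3⟩
  exact hpq ((Nat.prime_dvd_prime_iff_eq hp hq).1 h4)

theorem not_fg (K : Subfield ℂ) (hK : Reg K)
    (S : Finset (SeparableClosure K ≃ₐ[K] SeparableClosure K)) :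
    (Subgroup.closure (S : Set (SeparableClosure K ≃ₐ[K] SeparableClosure K))).topologicalClosure
      ≠ ⊤ := by
  classical
  intro hS
  have hne : NeZero ((2 : ℕ) : SeparableClosure K) := ⟨by
    have : CharZero (SeparableClosure K) := charZero_of_injective_algebraMap
      (algebraMap K (SeparableClosure K)).injective
    exact_mod_cast (two_ne_zero : (2 : SeparableClosure K) ≠ 0)⟩
  have hroot : ∀ p : Nat.Primes, ∃ z : SeparableClosure K, z ^ 2 = ((p : ℕ) : SeparableClosure K) :=
    fun p => IsSepClosed.exists_pow_nat_eq _ 2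
  choose z hz using hroot
  have hsign : ∀ (σ : SeparableClosure K ≃ₐ[K] SeparableClosure K) (p : Nat.Primes),
      σ (z p) = z p ∨ σ (z p) = - z p := by
    intro σ p
    apply sq_eq_sq_iff_eq_or_eq_neg.1
    rw [← map_pow, hz, map_natCast]
  let v : Nat.Primes → (S → Bool) := fun p σ => decide (σ.1 (z p) = z p)
  have hfS : Finite S := Finite.of_fintype _
  have hfin : Finite (S → Bool) := Pi.finite
  obtain ⟨p, q, hpq, hv⟩ := Finite.exists_ne_map_eq_of_infinite v
  obtain ⟨a, ha⟩ := fixed_of_dense K S hS (z p * z q) (by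
    intro σ hσ
    have h1 := congrFun hv ⟨σ, hσ⟩
    simp only [v, decide_eq_decide] at h1
    rw [map_mul]
    by_cases h2 : σ (z p) = z p
    · rw [h2, h1.1 h2]
    · rw [(hsign σ p).resolve_left h2, (hsign σ q).resolve_left (fun h => h2 (h1.2 h))]
      ring)
  have h2 : a ^ 2 = ((p : ℕ) : K) * ((q : ℕ) : K) := by
    apply (algebraMap K (SeparableClosure K)).injective
    rw [map_pow, ha, mul_pow, hz, hz, map_mul, map_natCast, map_natCast]
  have h3 : ((a : K) : ℂ) ^ 2 = ((p : ℕ) : ℂ) * ((q : ℕ) : ℂ) := by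
    have := congrArg (fun x : K => (x : ℂ)) h2
    simpa using this
  have h4 : IsAlgebraic ℚ ((a : K) : ℂ) := by
    apply IsAlgebraic.of_pow (n := 2) (by norm_num)
    rw [h3]
    have h5 : ((p : ℕ) : ℂ) * ((q : ℕ) : ℂ) = algebraMap ℚ ℂ (((p : ℕ) : ℚ) * ((q : ℕ) : ℚ)) := by
      simp
    rw [h5]
    exact isAlgebraic_algebraMap _
  obtain ⟨r, hr⟩ := hK a a.2 h4
  rw [← hr] at h3
  exact not_square p.2 q.2 (fun h => hpq (Subtype.ext h)) r (by exact_mod_cast h3)

end Pool.Agent.Helper191_PAC
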