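import Pool.Agent.Helper191_PAC.Step

set_option autoImplicit false

open Cardinal MvPolynomial

namespace Pool.Agent.Helper191_PAC

lemma countable_mvPolynomial (m : ℕ) (K : Subfield ℂ) (hK : Countable K) :
    Countable (MvPolynomial (Fin m) K) := by
  rw [← Cardinal.mk_le_aleph0_iff]
  refine (MvPolynomial.cardinalMk_le_max).trans ?_
  exact max_le (max_le Cardinal.mk_le_aleph0 Cardinal.mk_le_aleph0) le_rfl

lemma mk_closure {m : ℕ} (P : Ideal (MvPolynomial (Fin m) ℂ)) [P.IsPrime] :
    #(AlgebraicClosure (FractionRing (MvPolynomial (Fin m) ℂ ⧸ P))) = #ℂ := by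
  apply le_antisymm
  · have h1 := Algebra.IsAlgebraic.cardinalMk_le_max (FractionRing (MvPolynomial (Fin m) ℂ ⧸ P))
      (AlgebraicClosure (FractionRing (MvPolynomial (Fin m) ℂ ⧸ P)))
    have h2 : #(FractionRing (MvPolynomial (Fin m) ℂ ⧸ P)) ≤ #(MvPolynomial (Fin m) ℂ ⧸ P) :=
      IsLocalization.cardinalMk_le (nonZeroDivisors (MvPolynomial (Fin m) ℂ ⧸ P))
    have h3 : #(MvPolynomial (Fin m) ℂ ⧸ P) ≤ #(MvPolynomial (Fin m) ℂ) :=
      Cardinal.mk_le_of_surjective Ideal.Quotient.mk_surjective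
    have h4 : #(MvPolynomial (Fin m) ℂ) ≤ max (max #ℂ #(Fin m)) ℵ₀ :=
      MvPolynomial.cardinalMk_le_max
    have h5 : ℵ₀ ≤ #ℂ := by rw [Cardinal.mk_complex]; exact Cardinal.aleph0_le_continuum
    have h6 : #(Fin m) ≤ #ℂ := Cardinal.mk_le_aleph0.trans h5
    have h7 : max (max #ℂ #(Fin m)) ℵ₀ = #ℂ := by
      rw [max_eq_left h6, max_eq_left h5]
    rw [h7] at h4
    refine h1.trans (max_le ((h2.trans h3).trans h4) h5)
  · have : Function.Injective ((algebraMap (FractionRing (MvPolynomial (Fin m) ℂ ⧸ P))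
        (AlgebraicClosure (FractionRing (MvPolynomial (Fin m) ℂ ⧸ P)))).comp
        ((algebraMap (MvPolynomial (Fin m) ℂ ⧸ P)
        (FractionRing (MvPolynomial (Fin m) ℂ ⧸ P))).comp
        ((Ideal.Quotient.mk P).comp (C : ℂ →+* MvPolynomial (Fin m) ℂ)))) :=
      RingHom.injective _
    exact Cardinal.mk_le_of_injective this

lemma exists_zero {m : ℕ} (K : Subfield ℂ) (hK : Countable K) (hr : Reg K)
    (S : Set (MvPolynomial (Fin m) ℂ)) (hS : ∀ s ∈ S, CoeffIn K s)
    (hp : (Ideal.span S).IsPrime) :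
    ∃ K' : Subfield ℂ, K ≤ K' ∧ Countable K' ∧ Reg K' ∧
      ∃ x : Fin m → ℂ, (∀ i, x i ∈ K') ∧ ∀ s ∈ S, eval x s = 0 := by
  set P := Ideal.span S with hP
  set φ : MvPolynomial (Fin m) ℂ →+* (AlgebraicClosure (FractionRing (MvPolynomial (Fin m) ℂ ⧸ P))) :=
    (algebraMap (FractionRing (MvPolynomial (Fin m) ℂ ⧸ P))
        (AlgebraicClosure (FractionRing (MvPolynomial (Fin m) ℂ ⧸ P)))).comp
        ((algebraMap (MvPolynomial (Fin m) ℂ ⧸ P)
        (FractionRing (MvPolynomial (Fin m) ℂ ⧸ P))).comp (Ideal.Quotient.mk P)) with hφ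
  have hker : ∀ p, φ p = 0 ↔ p ∈ P := by
    intro p
    rw [hφ, RingHom.comp_apply, RingHom.comp_apply, map_eq_zero_iff _ (RingHom.injective _),
      map_eq_zero_iff _ (IsFractionRing.injective _ _), Ideal.Quotient.eq_zero_iff_mem]
  set ι : ℂ →+* (AlgebraicClosure (FractionRing (MvPolynomial (Fin m) ℂ ⧸ P))) := φ.comp C with hι
  let _ : Algebra K (AlgebraicClosure (FractionRing (MvPolynomial (Fin m) ℂ ⧸ P))) :=
    (ι.comp K.subtype).toAlgebra
  have h𝔠 : ℵ₀ < #(AlgebraicClosure (FractionRing (MvPolynomial (Fin m) ℂ ⧸ P))) := by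
    rw [mk_closure, Cardinal.mk_complex]; exact Cardinal.aleph0_lt_continuum
  obtain ⟨e⟩ := exists_algEquiv (R := K)
    (A := (AlgebraicClosure (FractionRing (MvPolynomial (Fin m) ℂ ⧸ P)))) (B := ℂ) h𝔠
    (mk_closure P)
  set x : Fin m → ℂ := fun i => e (φ (X i)) with hx
  set ψ : MvPolynomial (Fin m) K →+* ℂ := eval₂Hom K.subtype x with hψ
  have heK : ∀ k : K, e (ι (k : ℂ)) = k := fun k => e.commutes k
  have hψφ : ∀ f : MvPolynomial (Fin m) K, e (φ (map K.subtype f)) = ψ f := by
    intro f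
    have : (e.toRingEquiv.toRingHom.comp φ).comp (map K.subtype) = ψ := by
      apply MvPolynomial.ringHom_ext
      · intro k
        simp only [RingHom.comp_apply, map_C, hψ, eval₂Hom_C]
        exact heK k
      · intro i
        simp only [RingHom.comp_apply, map_X, hψ, eval₂Hom_X']
        rfl
    rw [← this]; rfl
  refine ⟨Subfield.closure (ψ.range : Set ℂ), ?_, ?_, ?_, x, ?_, ?_⟩
  · intro k hk
    exact Subfield.subset_closure ⟨C ⟨k, hk⟩, by simp [hψ]⟩
  · have := countable_mvPolynomial m K hK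
    have h1 : (Subfield.closure (ψ.range : Set ℂ) : Set ℂ) ⊆
        Set.range (fun p : MvPolynomial (Fin m) K × MvPolynomial (Fin m) K => ψ p.1 / ψ p.2) := by
      intro z hz
      obtain ⟨y, hy, w, hw, h⟩ := Subfield.mem_closure_iff.1 hz
      rw [Subring.closure_eq] at hy hw
      obtain ⟨f, rfl⟩ := hy
      obtain ⟨g, rfl⟩ := hw
      exact ⟨(f, g), h⟩
    exact (Set.countable_range _).mono h1
  · intro z hz hza
    obtain ⟨y, hy, w, hw, h⟩ := Subfield.mem_closure_iff.1 hz
    rw [Subring.closure_eq] at hy hw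
    obtain ⟨f, rfl⟩ := hy
    obtain ⟨g, rfl⟩ := hw
    by_cases hg : ψ g = 0
    · rw [hg, div_zero] at h
      exact ⟨0, by rw [← h]; simp⟩
    rw [div_eq_iff hg] at h
    -- the preimage in the big field
    obtain ⟨c, hc⟩ : ∃ c : ℂ, ι c = e.symm z := by
      have h1 : IsAlgebraic ℚ (e.symm z) := by
        obtain ⟨p, hp0, hpz⟩ := hza
        refine ⟨p, hp0, ?_⟩
        have : e.toRingEquiv.toRingHom (Polynomial.aeval (e.symm z) p) = 0 := by
          rw [Polynomial.aeval_def, Polynomial.hom_eval₂]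
          rw [Polynomial.aeval_def] at hpz
          have h2 : e.toRingEquiv.toRingHom (e.symm z) = z := e.apply_symm_apply z
          rw [h2, ← hpz]
          congr 1
          exact Subsingleton.elim _ _
        exact (map_eq_zero_iff _ e.injective).1 this
      let _ : Algebra ℂ (AlgebraicClosure (FractionRing (MvPolynomial (Fin m) ℂ ⧸ P))) :=
        ι.toAlgebra
      have h3 : IsAlgebraic ℂ (e.symm z) := by
        obtain ⟨p, hp0, hpz⟩ := h1
        refine ⟨p.map (algebraMap ℚ ℂ), (Polynomial.map_ne_zero_iff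
          (algebraMap ℚ ℂ).injective).2 hp0, ?_⟩
        rw [Polynomial.aeval_def, Polynomial.eval₂_map]
        rw [Polynomial.aeval_def] at hpz
        have h9 : (algebraMap ℂ (AlgebraicClosure (FractionRing
            (MvPolynomial (Fin m) ℂ ⧸ P)))).comp (algebraMap ℚ ℂ) = algebraMap ℚ _ :=
          Subsingleton.elim _ _
        rw [h9]
        exact hpz
      have h4 : (minpoly ℂ (e.symm z)).degree = 1 :=
        IsAlgClosed.degree_eq_one_of_irreducible ℂ (minpoly.irreducible h3.isIntegral)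
      obtain ⟨c, hc⟩ := minpoly.mem_range_of_degree_eq_one ℂ (e.symm z) h4
      exact ⟨c, hc⟩
    have h5 : φ (map K.subtype f - C c * map K.subtype g) = 0 := by
      apply e.injective
      rw [map_sub, map_mul, map_sub, map_mul, map_zero, hψφ, hψφ]
      have : e (φ (C c)) = z := by
        have : φ (C c) = ι c := rfl
        rw [this, hc, e.apply_symm_apply]
      rw [this, ← h, sub_self]
    have h6 : map K.subtype g ∉ P := by
      rw [← hker]
      intro h0
      apply hg
      rw [← hψφ, h0, map_zero]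
    have hin : ∀ f : MvPolynomial (Fin m) K, CoeffIn K (map K.subtype f) := by
      intro f d
      rw [coeff_map]
      exact (f.coeff d).2
    have h7 : c ∈ K := mem_of_sub_mem S hS _ _ (hin f) (hin g) c ((hker _).1 h5) h6
    have h8 : z = c := by
      have : e (ι c) = c := heK ⟨c, h7⟩
      rw [← this, hc, e.apply_symm_apply]
    rw [h8]
    exact hr c h7 (h8 ▸ hza)
  · intro i
    exact Subfield.subset_closure ⟨X i, by simp [hψ]⟩
  · intro s hs
    have h1 : φ s = 0 := (hker s).2 (Ideal.subset_span hs)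
    obtain ⟨f, hf⟩ : ∃ f : MvPolynomial (Fin m) K, map K.subtype f = s := by
      refine MvPolynomial.mem_range_map_iff_coeffs_subset.2 ?_
      intro c hc
      simp only [Subfield.coe_subtype, Subtype.range_coe_subtype]
      obtain ⟨d, _, rfl⟩ := MvPolynomial.mem_coeffs_iff.1 hc
      exact hS s hs d
    have h2 := hψφ f
    rw [hf, h1, map_zero] at h2
    rw [← hf, MvPolynomial.eval_map]
    exact h2.symm

end Pool.Agent.Helper191_PAC
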