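import Pool.Agent.Helper191_PAC.Alg

set_option autoImplicit false

open CategoryTheory Limits AlgebraicGeometry TensorProduct

namespace Pool.Agent.Helper191_PAC

lemma exists_section (K : Subfield ℂ) (hs : Solves K K) (X : Scheme.{0})
    (f : X ⟶ Spec (.of K)) [LocallyOfFiniteType f] [GeometricallyIntegral f] :
    ∃ s : Spec (.of K) ⟶ X, s ≫ f = 𝟙 _ := by
  have : IsIntegral X := GeometricallyIntegral.isIntegral_of_subsingleton f
  obtain ⟨R, j, hj, hR⟩ : ∃ (R : CommRingCat.{0}) (j : Spec R ⟶ X), IsOpenImmersion j ∧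
      Nonempty (Spec R) := by
    obtain ⟨x⟩ : Nonempty X := inferInstance
    obtain ⟨y, hy⟩ := X.affineCover.covers x
    exact ⟨_, X.affineCover.f (X.affineCover.idx x), X.affineCover.map_prop _, ⟨y⟩⟩
  obtain ⟨φ, hφ⟩ := Spec.map_surjective (j ≫ f)
  have hft : φ.hom.FiniteType := by
    have h1 : LocallyOfFiniteType (Spec.map φ) := by
      rw [hφ]
      infer_instance
    exact (HasRingHomProperty.Spec_iff (P := @LocallyOfFiniteType)).1 h1
  let _ : Algebra K R := φ.hom.toAlgebra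
  have : Algebra.FiniteType K R := hft
  have : Nontrivial R := (PrimeSpectrum.nonempty_iff_nontrivial).1 hR
  have hφ' : φ = CommRingCat.ofHom (algebraMap K R) := rfl
  let y : Spec (.of ℂ) ⟶ Spec (.of K) := Spec.map (CommRingCat.ofHom (algebraMap K ℂ))
  have hint : IsIntegral (pullback f y) :=
    pullback_of_geometrically (GeometricallyIntegral.geometrically_isIntegral (f := f)) _ _
  let e1 : pullback j (pullback.fst f y) ≅ pullback (j ≫ f) y :=
    pullbackRightPullbackFstIso _ _ _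
  let e2 : pullback (j ≫ f) y ≅ pullback (Spec.map (CommRingCat.ofHom (algebraMap K R))) y :=
    pullback.congrHom (by rw [← hφ']; exact hφ.symm) rfl
  let e3 : pullback (Spec.map (CommRingCat.ofHom (algebraMap K R))) y ≅
    Spec (.of (R ⊗[K] ℂ)) := pullbackSpecIso K R ℂ
  let e := e1 ≪≫ e2 ≪≫ e3
  have : Nonempty (Spec (.of (R ⊗[K] ℂ))) :=
    (PrimeSpectrum.nonempty_iff_nontrivial).2 inferInstance
  have hint2 : IsIntegral (Spec (.of (R ⊗[K] ℂ))) :=
    isIntegral_of_isOpenImmersion (e.inv ≫ pullback.snd j (pullback.fst f y))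
  have hdom : IsDomain (R ⊗[K] ℂ) := (affine_isIntegral_iff _).1 hint2
  have hdom' : IsDomain (ℂ ⊗[K] R) :=
    MulEquiv.isDomain (R ⊗[K] ℂ) (Algebra.TensorProduct.comm K ℂ R).toMulEquiv
  obtain ⟨h⟩ := exists_algHom K hs R hdom'
  refine ⟨Spec.map (CommRingCat.ofHom h.toRingHom) ≫ j, ?_⟩
  rw [Category.assoc, ← hφ, hφ', ← Spec.map_comp, ← Spec.map_id]
  congr 1
  ext x
  exact congrArg _ (h.commutes x)

end Pool.Agent.Helper191_PAC
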