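import Pool.Agent.Helper191_PAC.Emb

set_option autoImplicit false

open Cardinal MvPolynomial

namespace Pool.Agent.Helper191_PAC

/-- every element of `K` which is algebraic over `ℚ` is rational -/
def Reg (K : Subfield ℂ) : Prop := ∀ z ∈ K, IsAlgebraic ℚ z → ∃ q : ℚ, (q : ℂ) = z

/-- the coefficients of a polynomial lie in `K` -/
def CoeffIn {m : ℕ} (K : Subfield ℂ) (p : MvPolynomial (Fin m) ℂ) : Prop := ∀ d, p.coeff d ∈ K

/-- the coefficientwise application of a linear functional -/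
noncomputable def lam {m : ℕ} {K : Subfield ℂ} (l : ℂ →ₗ[K] K) (p : MvPolynomial (Fin m) ℂ) :
    MvPolynomial (Fin m) ℂ := ∑ d ∈ p.support, monomial d ((l (p.coeff d) : K) : ℂ)

lemma coeff_lam {m : ℕ} {K : Subfield ℂ} (l : ℂ →ₗ[K] K) (p : MvPolynomial (Fin m) ℂ)
    (d : Fin m →₀ ℕ) : (lam l p).coeff d = ((l (p.coeff d) : K) : ℂ) := by
  unfold lam
  rw [coeff_sum]
  simp only [coeff_monomial]
  rw [Finset.sum_ite_eq' p.support d]
  split_ifs with h
  · rfl
  · rw [notMem_support_iff.1 h]; simp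

lemma lam_add {m : ℕ} {K : Subfield ℂ} (l : ℂ →ₗ[K] K) (p q : MvPolynomial (Fin m) ℂ) :
    lam l (p + q) = lam l p + lam l q := by
  ext d
  rw [coeff_add, coeff_lam, coeff_lam, coeff_lam, coeff_add, map_add]
  push_cast; rfl

lemma lam_zero {m : ℕ} {K : Subfield ℂ} (l : ℂ →ₗ[K] K) :
    lam l (0 : MvPolynomial (Fin m) ℂ) = 0 := by
  ext d
  rw [coeff_lam]; simp

lemma lam_mul {m : ℕ} {K : Subfield ℂ} (l : ℂ →ₗ[K] K) (p s : MvPolynomial (Fin m) ℂ)
    (hs : CoeffIn K s) : lam l (p * s) = lam l p * s := by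
  classical
  ext d
  rw [coeff_lam, coeff_mul, coeff_mul, map_sum]
  push_cast
  refine Finset.sum_congr rfl fun x _ => ?_
  rw [coeff_lam]
  have h : p.coeff x.1 * s.coeff x.2 = (⟨s.coeff x.2, hs x.2⟩ : K) • p.coeff x.1 := by
    rw [Subfield.smul_def, smul_eq_mul, mul_comm]
  rw [h, map_smul]
  simp [mul_comm]

lemma lam_mem {m : ℕ} {K : Subfield ℂ} (l : ℂ →ₗ[K] K) (S : Set (MvPolynomial (Fin m) ℂ))
    (hS : ∀ s ∈ S, CoeffIn K s) (p : MvPolynomial (Fin m) ℂ) (hp : p ∈ Ideal.span S) :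
    lam l p ∈ Ideal.span S := by
  have key : ∀ h, lam l (h * p) ∈ Ideal.span S := by
    refine Submodule.span_induction (p := fun q _ => ∀ h, lam l (h * q) ∈ Ideal.span S)
      ?_ ?_ ?_ ?_ hp
    · intro s hs h
      rw [lam_mul l h s (hS s hs)]
      exact Ideal.mul_mem_left _ _ (Ideal.subset_span hs)
    · intro h
      rw [mul_zero, lam_zero]; exact Ideal.zero_mem _
    · intro x y _ _ hx hy h
      rw [mul_add, lam_add]
      exact Ideal.add_mem _ (hx h) (hy h)
    · intro a x _ hx h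
      rw [smul_eq_mul, ← mul_assoc]
      exact hx _
  have := key 1
  rwa [one_mul] at this

/-- linear disjointness of the generic point and `ℂ` -/
lemma mem_of_sub_mem {m : ℕ} {K : Subfield ℂ} (S : Set (MvPolynomial (Fin m) ℂ))
    (hS : ∀ s ∈ S, CoeffIn K s) (f g : MvPolynomial (Fin m) ℂ) (hf : CoeffIn K f)
    (hg : CoeffIn K g) (c : ℂ) (hfg : f - C c * g ∈ Ideal.span S) (hg' : g ∉ Ideal.span S) :
    c ∈ K := by
  by_contra hc
  have hc' : c ∉ (Submodule.span K {(1 : ℂ)} : Submodule K ℂ) := by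
    intro h
    obtain ⟨a, ha⟩ := Submodule.mem_span_singleton.1 h
    apply hc
    rw [← ha, Subfield.smul_def, smul_eq_mul, mul_one]
    exact a.2
  obtain ⟨l, hl, hker⟩ := Submodule.exists_le_ker_of_notMem hc'
  have h1 : l 1 = 0 := hker (Submodule.mem_span_singleton_self _)
  have h2 := lam_mem l S hS _ hfg
  have h3 : lam l (f - C c * g) = - (C ((l c : K) : ℂ) * g) := by
    ext d
    rw [coeff_lam, coeff_sub, coeff_C_mul, map_sub, coeff_neg, coeff_C_mul]
    have e1 : f.coeff d = (⟨f.coeff d, hf d⟩ : K) • (1 : ℂ) := by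
      rw [Subfield.smul_def, smul_eq_mul, mul_one]
    have e2 : c * g.coeff d = (⟨g.coeff d, hg d⟩ : K) • c := by
      rw [Subfield.smul_def, smul_eq_mul, mul_comm]
    rw [e1, e2, map_smul, map_smul, h1]
    simp [mul_comm]
  rw [h3, neg_mem_iff] at h2
  apply hg'
  have h4 : g = C (((l c : K) : ℂ))⁻¹ * (C ((l c : K) : ℂ) * g) := by
    rw [← mul_assoc, ← C_mul, inv_mul_cancel₀, C_1, one_mul]
    intro h
    exact hl (by exact_mod_cast h)
  rw [h4]
  exact Ideal.mul_mem_left _ _ h2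

end Pool.Agent.Helper191_PAC
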